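import Pool.Agent.H364_TC.Cluster

/-!
# Diophantine `α` for which the triple correlation of `n² α` modulo one is unbounded

For every `κ > 2` there is an irrational number `α` of type `κ` such that for all `k ≥ 2` with
`κ > 3k / (2(k-1))` the `k`-level correlation of `{n² α}`, `n ≤ N`, is unbounded as `N → ∞`, for
every continuous compactly supported test function `f ≥ 0` with `f(0) > 0`. For `9/4 < κ < 3` this
applies to the triple correlation `k = 3`, so the answer to Q1 is negative.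
-/

set_option autoImplicit false

namespace Pool.Agent.Results.MP_0a44cb_nt.TripleCorrelation

open Filter Topology

/-- `x_n = {n² α}`, the fractional part of `n² α`. -/
noncomputable def x (α : ℝ) (n : ℕ) : ℝ := Int.fract ((n : ℝ) ^ 2 * α)

/-- The `k`-level correlation `R_k(f, N)` of `x_1, …, x_N`, for `k = d + 1` and `f : ℝ^d → ℝ`:
`(1/N)` times the sum over pairwise distinct `n_0, …, n_d ∈ {1, …, N}` and over `m ∈ ℤ^d` of
`f (N (x_{n_0} - x_{n_1} + m_0), …, N (x_{n_{d-1}} - x_{n_d} + m_{d-1}))`. -/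
noncomputable def corr (d N : ℕ) (α : ℝ) (f : (Fin d → ℝ) → ℝ) : ℝ :=
  (1 / (N : ℝ)) *
    ∑ n ∈ (Fintype.piFinset fun _ : Fin (d + 1) => Finset.Icc 1 N).filter
        (fun n => Function.Injective n),
      ∑' m : Fin d → ℤ,
        f fun i => (N : ℝ) * (x α (n i.castSucc) - x α (n i.succ) + (m i : ℝ))

/-- `α` is of type `κ`: `|α - a/q| ≥ C q^(-κ)` for all coprime `a`, `q ≥ 1`, with a `C > 0`. -/
def IsOfType (κ α : ℝ) : Prop :=
  ∃ C : ℝ, 0 < C ∧ ∀ a q : ℤ, 1 ≤ q → IsCoprime a q →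
    C * (q : ℝ) ^ (-κ) ≤ |α - (a : ℝ) / (q : ℝ)|

/-- **Theorem.** (1) For every `κ > 2` there is an irrational `α` of type `κ` such that, for every
`k = d + 1 ≥ 2` with `κ > 3k / (2(k-1))` and every continuous compactly supported `f ≥ 0` on
`ℝ^(k-1)` with `f 0 > 0`, the correlations `R_k(f, N)` exceed every bound for infinitely many `N`.
(2) In particular there are `κ < 3`, an irrational `α` of type `κ` and a continuous compactly
supported `f : ℝ² → ℝ` for which the triple correlation `R_3(f, N)` does not tend to `∫ f`. -/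
theorem result :
    (∀ κ : ℝ, 2 < κ → ∃ α : ℝ, Irrational α ∧ IsOfType κ α ∧
      ∀ d : ℕ, 1 ≤ d → 3 * ((d : ℝ) + 1) / (2 * d) < κ →
        ∀ f : (Fin d → ℝ) → ℝ, Continuous f → HasCompactSupport f → (∀ y, 0 ≤ f y) → 0 < f 0 →
          ∀ M : ℝ, ∃ᶠ N : ℕ in atTop, M ≤ corr d N α f) ∧
    ∃ κ α : ℝ, κ < 3 ∧ Irrational α ∧ IsOfType κ α ∧
      ∃ f : (Fin 2 → ℝ) → ℝ, Continuous f ∧ HasCompactSupport f ∧
        ¬ Tendsto (fun N : ℕ => corr 2 N α f) atTop (𝓝 (∫ y, f y)) := by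
  have main : ∀ κ : ℝ, 2 < κ → ∃ α : ℝ, Irrational α ∧ IsOfType κ α ∧
      ∀ d : ℕ, 1 ≤ d → 3 * ((d : ℝ) + 1) / (2 * d) < κ →
        ∀ f : (Fin d → ℝ) → ℝ, Continuous f → HasCompactSupport f → (∀ y, 0 ≤ f y) → 0 < f 0 →
          ∀ M : ℝ, ∃ᶠ N : ℕ in atTop, M ≤ corr d N α f := by
    intro κ hκ
    obtain ⟨E, hE⟩ := exists_nat_gt (1 / (κ - 2))
    have hκ0 : 0 < κ - 2 := by linarith
    have hE1 : 1 ≤ (κ - 2) * E := by
      rw [div_lt_iff₀ hκ0] at hE
      linarith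
    let P : Pool.Agent.H364_TC.Par := ⟨κ - 2, E, hκ0, hE1⟩
    refine ⟨P.alpha, P.irrational_alpha, P.type_alpha κ ?_, ?_⟩
    · show 2 + (κ - 2) ≤ κ
      linarith
    · intro d hd hdκ f hf hc hf0 h0 M
      have hdR : (0 : ℝ) < d := by exact_mod_cast hd
      refine P.unbounded d ?_ f hf hc hf0 h0 M
      show 3 < (d : ℝ) * (1 + 2 * (κ - 2))
      rw [div_lt_iff₀ (by positivity)] at hdκ
      linarith
  refine ⟨main, ?_⟩
  obtain ⟨α, h1, h2, h3⟩ := main (5 / 2) (by norm_num)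
  refine ⟨5 / 2, α, by norm_num, h1, h2,
    Pool.Agent.Results.MP_ba281e_nt.NoPoissonSubseq.bump 2,
    Pool.Agent.Results.MP_ba281e_nt.NoPoissonSubseq.bump_continuous 2,
    Pool.Agent.Results.MP_ba281e_nt.NoPoissonSubseq.bump_compact 2, ?_⟩
  intro ht
  have h4 := h3 2 (by norm_num) (by norm_num)
    (Pool.Agent.Results.MP_ba281e_nt.NoPoissonSubseq.bump 2)
    (Pool.Agent.Results.MP_ba281e_nt.NoPoissonSubseq.bump_continuous 2)
    (Pool.Agent.Results.MP_ba281e_nt.NoPoissonSubseq.bump_compact 2)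
    (Pool.Agent.Results.MP_ba281e_nt.NoPoissonSubseq.bump_nonneg 2)
    (by unfold Pool.Agent.Results.MP_ba281e_nt.NoPoissonSubseq.bump; simp)
    ((∫ y, Pool.Agent.Results.MP_ba281e_nt.NoPoissonSubseq.bump 2 y) + 1)
  have h5 := ht.eventually (gt_mem_nhds (lt_add_one _))
  obtain ⟨N, hN1, hN2⟩ := (h4.and_eventually h5).exists
  linarith

end Pool.Agent.Results.MP_0a44cb_nt.TripleCorrelation
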